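import Mathlib

namespace Pool.Agent.Helper60.Had

open Finset Matrix

variable {V : Type*} [Fintype V] [DecidableEq V]

lemma det_le_one_of_trace {A : Matrix V V ℝ} (hA : A.PosSemidef) (htr : A.trace = Fintype.card V) :
    A.det ≤ 1 := by
  have h1 := hA.isHermitian.det_eq_prod_eigenvalues
  have h2 := hA.isHermitian.trace_eq_sum_eigenvalues
  rw [h1]
  rw [htr] at h2
  have h3 : ∀ i, hA.isHermitian.eigenvalues i ≤ Real.exp (hA.isHermitian.eigenvalues i - 1) := by
    intro i
    have := Real.add_one_le_exp (hA.isHermitian.eigenvalues i - 1)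
    linarith
  calc ∏ i, ((hA.isHermitian.eigenvalues i : ℝ) : ℝ)
      ≤ ∏ i, Real.exp (hA.isHermitian.eigenvalues i - 1) := by
        apply prod_le_prod
        · intro i _
          exact hA.eigenvalues_nonneg i
        · intro i _
          exact h3 i
    _ = Real.exp (∑ i, (hA.isHermitian.eigenvalues i - 1)) := by rw [Real.exp_sum]
    _ = 1 := by
      rw [sum_sub_distrib]
      simp only [sum_const, card_univ, nsmul_eq_mul, mul_one]
      have : ∑ i, hA.isHermitian.eigenvalues i = (Fintype.card V : ℝ) := by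
        rw [h2]; rfl
      rw [this, sub_self, Real.exp_zero]

/-- Hadamard's inequality for positive semidefinite matrices. -/
theorem det_le_prod_diag {A : Matrix V V ℝ} (hA : A.PosSemidef) :
    A.det ≤ ∏ i, A i i := by
  have hnn : ∀ i, 0 ≤ A i i := fun i => hA.diag_nonneg
  by_cases hdet : A.det = 0
  · rw [hdet]
    exact prod_nonneg (fun i _ => hnn i)
  · have hpd : A.PosDef := by
      rw [hA.posDef_iff_isUnit]
      rw [Matrix.isUnit_iff_isUnit_det]
      exact isUnit_iff_ne_zero.2 hdet
    have hpos : ∀ i, 0 < A i i := fun i => hpd.diag_pos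
    let D : Matrix V V ℝ := Matrix.diagonal (fun i => (Real.sqrt (A i i))⁻¹)
    have hDt : Dᴴ = D := by
      simp [D, Matrix.diagonal_conjTranspose]
    have hB : (D * A * Dᴴ).PosSemidef := hA.mul_mul_conjTranspose_same D
    have hBii : ∀ i, (D * A * Dᴴ) i i = 1 := by
      intro i
      rw [hDt]
      simp only [D, Matrix.diagonal_mul, Matrix.mul_diagonal]
      have hs : Real.sqrt (A i i) * Real.sqrt (A i i) = A i i := Real.mul_self_sqrt (hnn i)
      have hs0 : Real.sqrt (A i i) ≠ 0 := (Real.sqrt_pos.2 (hpos i)).ne'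
      field_simp
      rw [sq]; exact hs.symm
    have htr : (D * A * Dᴴ).trace = Fintype.card V := by
      rw [Matrix.trace]
      simp only [Matrix.diag_apply, hBii]
      simp
    have h1 := det_le_one_of_trace hB htr
    rw [hDt, Matrix.det_mul, Matrix.det_mul] at h1
    have hD : D.det = ∏ i, (Real.sqrt (A i i))⁻¹ := by simp [D, Matrix.det_diagonal]
    have h2 : D.det * D.det * ∏ i, A i i = 1 := by
      rw [hD, ← prod_mul_distrib, ← prod_mul_distrib]
      apply prod_eq_one
      intro i _
      have hs : Real.sqrt (A i i) * Real.sqrt (A i i) = A i i := Real.mul_self_sqrt (hnn i)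
      have hs0 : Real.sqrt (A i i) ≠ 0 := (Real.sqrt_pos.2 (hpos i)).ne'
      field_simp
      rw [sq]; exact hs.symm
    have hp : 0 < ∏ i, A i i := prod_pos (fun i _ => hpos i)
    have h3 : A.det = (D.det * A.det * D.det) * ∏ i, A i i := by
      calc A.det = A.det * 1 := by ring
        _ = A.det * (D.det * D.det * ∏ i, A i i) := by rw [h2]
        _ = _ := by ring
    rw [h3]
    calc (D.det * A.det * D.det) * ∏ i, A i i ≤ 1 * ∏ i, A i i :=
          mul_le_mul_of_nonneg_right h1 hp.le
      _ = ∏ i, A i i := one_mul _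

end Pool.Agent.Helper60.Had
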